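import Pool.Agent.H95.LK.S7
import Pool.Agent.H91.LK.G8

/-!
# Faces of a sparse polynomial, final form, with the constant of Smyth's theorem

The definitions `IsRel`, `IsDir`, `facePoly`, `relSpan` are those of `H91.LK.G8`.
-/

set_option autoImplicit false

namespace Pool.Agent.H95.LK

open Polynomial H91.LK

/-- `w` as a vector indexed by the terms -/
noncomputable def vec (f : ℤ[X]) (w : ℕ → ℤ) : Fin f.support.card → ℚ := fun i => (w (expo f i) : ℚ)

theorem vec_mem (f : ℤ[X]) {J J' : ℕ} (hJ : 2 * J' ≤ J) (w : ℕ → ℤ) (hw : IsDir f J w) :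
    vec f w ∈ VV f J' := by
  intro c h0 h1 h2
  have h3 := hw (extz f c) (extz_rel f J c h0 (h1.trans (by exact_mod_cast hJ)) h2)
  rw [← sum_expo f fun m => extz f c m * w m] at h3
  simp_rw [extz_expo] at h3
  have h4 : ((∑ i, c i * w (expo f i) : ℤ) : ℚ) = 0 := by rw [h3, Int.cast_zero]
  push_cast at h4
  exact h4

theorem mem_face_vec (f : ℤ[X]) (w : ℕ → ℤ) (i : Fin f.support.card) :
    i ∈ face (vec f w) ↔ ∀ j ∈ f.support, w j ≤ w (expo f i) := by
  rw [mem_face]
  constructor
  · intro h m hm
    obtain ⟨j, rfl⟩ := expo_surj f hm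
    have h9 : (w (expo f j) : ℚ) ≤ w (expo f i) := h j
    exact_mod_cast h9
  · intro h j
    have h9 : (w (expo f j) : ℚ) ≤ w (expo f i) := by exact_mod_cast h _ (expo_mem f j)
    exact h9

theorem fp_face_vec (f : ℤ[X]) (w : ℕ → ℤ) :
    fp (cf f) (fun i => expo f i) (face (vec f w)) = facePoly f w := by
  unfold fp facePoly
  refine Finset.sum_bij (fun i _ => expo f i) ?_ ?_ ?_ ?_
  · intro i hi
    exact Finset.mem_filter.2 ⟨expo_mem f i, (mem_face_vec f w i).1 hi⟩
  · intro i _ j _ h
    exact (expo f).injective h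
  · intro m hm
    obtain ⟨hm1, hm2⟩ := Finset.mem_filter.1 hm
    obtain ⟨i, rfl⟩ := expo_surj f hm1
    exact ⟨i, (mem_face_vec f w i).2 hm2, rfl⟩
  · intro i _
    rfl

/-- faces for `f` itself, given a bound for the measure of the face -/
theorem face_of_bound (f : ℤ[X]) (hk : 0 < f.support.card) (ε : ℝ) (w : ℕ → ℤ)
    (hb : lm (facePoly f w) ≤ lm f + ε) (h : lm f + ε < Real.log (13247 / 10000)) :
    ∃ (s : ℕ) (e : ℤ), (e = 1 ∨ e = -1) ∧ ∀ i ∈ (facePoly f w).support,
      i ≤ s ∧ (facePoly f w).coeff (s - i) = e * (facePoly f w).coeff i := by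
  classical
  have hsp : sp (cf f) (fun i => expo f i) = f := sp_expo f
  have hfp := fp_face_vec f w
  obtain ⟨s, e, he, h7⟩ := faces_of_bound hk (cf f) (cf_ne f) (fun i => expo f i)
    (expo f).injective ε (vec f w) (by rw [hfp, hsp]; exact hb) (by rw [hsp]; exact h)
  refine ⟨s, e, he, ?_⟩
  have hco : ∀ i ∈ face (vec f w), (facePoly f w).coeff (expo f i) = cf f i := by
    intro i hi
    rw [← hfp]
    exact G1_coeff (cf f) (fun i => expo f i) (expo f).injective (face (vec f w)) hi
  intro m hm
  have hm' : ∃ i ∈ face (vec f w), expo f i = m := by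
    by_contra hcon
    push Not at hcon
    apply mem_support_iff.1 hm
    rw [← hfp]
    unfold fp
    rw [finsetSum_coeff]
    refine Finset.sum_eq_zero fun i hi => ?_
    rw [coeff_monomial, if_neg (hcon i hi)]
  obtain ⟨i, hi, rfl⟩ := hm'
  obtain ⟨j, hj, hij, haj⟩ := h7 i hi
  have hij' : expo f i + expo f j = s := hij
  refine ⟨by omega, ?_⟩
  have h8 : s - expo f i = expo f j := by omega
  rw [h8, hco j hj, hco i hi]
  exact haj

/-- the number of terms and the number of independent relations, given a bound for the measures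
of the faces -/
theorem rank_of_bound (f : ℤ[X]) (hk : 0 < f.support.card) (J J' : ℕ) (hJ' : 2 ≤ J')
    (hJ : 2 * J' ≤ J) (ε : ℝ)
    (hb : ∀ V : Submodule ℚ (Fin f.support.card → ℚ), Kills J' (fun i => expo f i) V →
      ∀ w ∈ V, lm (fp (cf f) (fun i => expo f i) (face w)) ≤ lm f + ε)
    (h : lm f + ε < Real.log (13247 / 10000)) :
    2 ^ (f.support.card - 1 - Module.finrank ℚ (relSpan f J)) ≤ f.support.card := by
  classical
  have hsp : sp (cf f) (fun i => expo f i) = f := sp_expo f
  set φ : (ℕ → ℚ) →ₗ[ℚ] (Fin f.support.card → ℚ) := LinearMap.funLeft ℚ ℚ fun i => expo f i with hφ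
  set S : Submodule ℚ (Fin f.support.card → ℚ) := (relSpan f J).map φ with hS
  set V : Submodule ℚ (Fin f.support.card → ℚ) := LinearMap.ker (G6_perp S) with hV
  have hmem : ∀ x : Fin f.support.card → ℚ, x ∈ V ↔ ∀ s ∈ S, ∑ i, s i * x i = 0 := by
    intro x
    rw [hV, LinearMap.mem_ker]
    constructor
    · intro h s hs
      have := LinearMap.congr_fun h ⟨s, hs⟩
      simpa [G6_perp] using this
    · intro h
      ext s
      have := h s s.2
      simpa [G6_perp] using this
  have hfin : Module.Finite ℚ (relSpan f J) := by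
    have hle : relSpan f J ≤ Submodule.span ℚ
        ((f.support.image fun m => (Pi.single m (1 : ℚ) : ℕ → ℚ) : Finset (ℕ → ℚ)) :
          Set (ℕ → ℚ)) := by
      unfold relSpan
      rw [Submodule.span_le]
      rintro x ⟨c, hc, hx⟩
      have h1 : x = ∑ m ∈ f.support, (c m : ℚ) • (Pi.single m (1 : ℚ) : ℕ → ℚ) := by
        funext i
        rw [hx i, Finset.sum_apply]
        simp only [Pi.smul_apply, Pi.single_apply, smul_eq_mul, mul_ite, mul_one, mul_zero,
          Finset.sum_ite_eq]
        split_ifs with hi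
        · rfl
        · rw [hc.1 i hi, Int.cast_zero]
      rw [h1]
      refine Submodule.sum_mem _ fun m hm => Submodule.smul_mem _ _ (Submodule.subset_span ?_)
      exact Finset.mem_coe.2 (Finset.mem_image_of_mem _ hm)
    have := Module.Finite.span_finset ℚ
      (f.support.image fun m => (Pi.single m (1 : ℚ) : ℕ → ℚ))
    exact Submodule.finiteDimensional_of_le hle
  have hrank : Module.finrank ℚ S ≤ Module.finrank ℚ (relSpan f J) :=
    Submodule.finrank_map_le φ _
  have hone : (fun _ => (1 : ℚ)) ∈ V := by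
    rw [hmem]
    intro s hs
    rw [hS, Submodule.mem_map] at hs
    obtain ⟨y, hy, rfl⟩ := hs
    unfold relSpan at hy
    have hlin : ∀ y ∈ Submodule.span ℚ {x : ℕ → ℚ | ∃ c : ℕ → ℤ, IsRel f J c ∧ ∀ i, x i = c i},
        ∑ m ∈ f.support, y m = 0 := by
      intro y hy
      induction hy using Submodule.span_induction with
      | mem x hx =>
        obtain ⟨c, hc, hxc⟩ := hx
        have h0 : ((∑ m ∈ f.support, c m : ℤ) : ℚ) = 0 := by rw [hc.2.1, Int.cast_zero]
        push_cast at h0
        simp_rw [hxc]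
        exact h0
      | zero => simp
      | add x y _ _ hx hy =>
        simp only [Pi.add_apply, Finset.sum_add_distrib, hx, hy, add_zero]
      | smul r x _ hx =>
        simp only [Pi.smul_apply, smul_eq_mul, ← Finset.mul_sum, hx, mul_zero]
    have h1 := hlin y hy
    rw [← sum_expo f y] at h1
    simpa [hφ, LinearMap.funLeft_apply] using h1
  have hkills : Kills J' (fun i => expo f i) V := by
    intro c h0 h1 h2 x hx
    rw [hmem] at hx
    apply hx
    rw [hS, Submodule.mem_map]
    refine ⟨fun m => (extz f c m : ℚ), ?_, ?_⟩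
    · unfold relSpan
      apply Submodule.subset_span
      exact ⟨extz f c, extz_rel f J c h0 (h1.trans (by exact_mod_cast hJ)) h2,
        fun i => rfl⟩
    · funext i
      rw [hφ, LinearMap.funLeft_apply, extz_expo]
  have hdim := dim_of_bound (J := J') hk hJ' (cf f) (cf_ne f) (fun i => expo f i)
    (expo f).injective ε V hone hkills (by rw [hsp]; exact hb V hkills) (by rw [hsp]; exact h)
  have hperp : f.support.card - Module.finrank ℚ S ≤ Module.finrank ℚ V := G6_perp_finrank S
  refine (Nat.pow_le_pow_right (by norm_num) ?_).trans hdim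
  omega

/-- **Faces**, `M(f) < 1.3245`. -/
theorem faces13_265 (f : ℤ[X]) (hk : 2 ≤ f.support.card) (hM : lm f < Real.log (13245 / 10000))
    (J : ℕ) (hJ : f.support.card ^ (265 * f.support.card) ≤ J) (w : ℕ → ℤ) (hw : IsDir f J w) :
    lm (facePoly f w) ≤ lm f + 1 / 10000 ∧
    ∃ (s : ℕ) (e : ℤ), (e = 1 ∨ e = -1) ∧ ∀ i ∈ (facePoly f w).support,
      i ≤ s ∧ (facePoly f w).coeff (s - i) = e * (facePoly f w).coeff i := by
  have h2J := two_mul_le f.support.card hk
  have hsp : sp (cf f) (fun i => expo f i) = f := sp_expo f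
  have h1 := faces13 f.support.card hk (cf f) (cf_ne f) (fun i => expo f i) (expo f).injective
    (f.support.card ^ (264 * f.support.card)) le_rfl
    (VV f (f.support.card ^ (264 * f.support.card))) (VV_kills f _) (by rw [hsp]; exact hM)
    (vec f w) (vec_mem f (h2J.trans hJ) w hw)
  rw [hsp, fp_face_vec] at h1
  exact ⟨h1.1, face_of_bound f (by omega) (1 / 10000) w h1.1 h1.2⟩

/-- **Number of terms and of relations**, `M(f) < 1.3245`. -/
theorem rank13_265 (f : ℤ[X]) (hk : 2 ≤ f.support.card) (hM : lm f < Real.log (13245 / 10000))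
    (J : ℕ) (hJ : f.support.card ^ (265 * f.support.card) ≤ J) :
    2 ^ (f.support.card - 1 - Module.finrank ℚ (relSpan f J)) ≤ f.support.card := by
  have h2J := two_mul_le f.support.card hk
  have hsp : sp (cf f) (fun i => expo f i) = f := sp_expo f
  have hJ2 : 2 ≤ f.support.card ^ (264 * f.support.card) := by
    calc 2 ≤ f.support.card := hk
      _ = f.support.card ^ 1 := (pow_one _).symm
      _ ≤ f.support.card ^ (264 * f.support.card) := Nat.pow_le_pow_right (by omega) (by omega)
  have h1 : ∀ V : Submodule ℚ (Fin f.support.card → ℚ),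
      Kills (f.support.card ^ (264 * f.support.card)) (fun i => expo f i) V → ∀ w ∈ V,
      lm (fp (cf f) (fun i => expo f i) (face w)) ≤ lm f + 1 / 10000 ∧
        lm f + 1 / 10000 < Real.log (13247 / 10000) := by
    intro V hV w hw
    have h2 := faces13 f.support.card hk (cf f) (cf_ne f) (fun i => expo f i) (expo f).injective
      (f.support.card ^ (264 * f.support.card)) le_rfl V hV (by rw [hsp]; exact hM) w hw
    rw [hsp] at h2
    exact h2
  refine rank_of_bound f (by omega) J (f.support.card ^ (264 * f.support.card)) hJ2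
    (h2J.trans hJ) (1 / 10000) (fun V hV w hw => (h1 V hV w hw).1) ?_
  exact (h1 ⊥ (fun c _ _ _ x hx => by rw [(Submodule.mem_bot ℚ).1 hx]; simp) 0
    (Submodule.zero_mem _)).2

end Pool.Agent.H95.LK
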