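import Pool.Agent.H91.LK.G7
import Pool.Agent.H95.Smyth.Main

/-!
# Faces of sparse polynomials with the constant of Smyth's theorem

As `H91.LK.G7`, with the full theorem of Smyth (`θ₀ = 1.3247...`) in place of its weak form (`1.2807`).
-/

set_option autoImplicit false

namespace Pool.Agent.H95.LK

open Polynomial H91.LK

theorem S7_num (k t : ℕ) (hk : 2 ≤ k) (ht : t + 1 = k) : ∃ L η : ℝ, 1 ≤ L ∧ 0 < η ∧ η ≤ 1 ∧
    (k : ℝ) * (2 * Real.exp (2 * t * (1 + Real.log (1 + 26 * t)))) ≤ L ∧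
    ∀ J : ℕ, k ^ (264 * k) ≤ J → Er t J L η ≤ 2 / (10000 * (k : ℝ)) := by
  have hK : (2 : ℝ) ≤ k := by exact_mod_cast hk
  have hK0 : (0 : ℝ) < k := by linarith
  have ht1 : 1 ≤ t := by omega
  have hT1 : (1 : ℝ) ≤ t := by exact_mod_cast ht1
  have hL := G6_L k t hk ht
  have hE := G6_eta k t hk ht
  have hy : 0 ≤ 2 * (t : ℝ) * (1 + Real.log (1 + 26 * t)) := by
    have : 0 ≤ Real.log (1 + 26 * (t : ℝ)) := Real.log_nonneg (by linarith)
    positivity
  set y : ℝ := 2 * (t : ℝ) * (1 + Real.log (1 + 26 * t)) with hydef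
  set z : ℝ := 10000 * (k : ℝ) * (2 * t * (1 + 26 * t)) with hzdef
  have hz1 : 1 ≤ z := by
    have h1 : (1 : ℝ) ≤ 2 * t * (1 + 26 * t) := by nlinarith
    have h2 : (1 : ℝ) ≤ 10000 * (k : ℝ) := by linarith
    rw [hzdef]
    exact one_le_mul_of_one_le_of_one_le h2 h1
  have hz0 : 0 < z := by linarith
  have hexp1 : 1 ≤ Real.exp y := Real.one_le_exp hy
  refine ⟨2 * k * Real.exp y, (1 / z) ^ (2 * t), ?_, by positivity, ?_, ?_, ?_⟩
  · nlinarith
  · apply pow_le_one₀ (by positivity)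
    rw [div_le_one hz0]
    exact hz1
  · have h2 : 2 * (k : ℝ) * Real.exp y = (k : ℝ) * (2 * Real.exp y) := by ring
    rw [h2]
  · intro J hJ
    have hJR : (k : ℝ) ^ (264 * k) ≤ J := by exact_mod_cast hJ
    unfold Er
    have hGG : Pool.Agent.H61.Sparse.GG t ((1 / z) ^ (2 * t)) = 1 / (10000 * (k : ℝ)) := by
      unfold Pool.Agent.H61.Sparse.GG
      have h1 : ((1 / z) ^ (2 * t)) ^ (1 / (2 * (t : ℝ))) = 1 / z := by
        rw [← Real.rpow_natCast, ← Real.rpow_mul (by positivity)]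
        have : ((2 * t : ℕ) : ℝ) * (1 / (2 * (t : ℝ))) = 1 := by
          push_cast
          field_simp
        rw [this, Real.rpow_one]
      rw [h1, hzdef]
      field_simp
    rw [hGG]
    set L : ℝ := 2 * k * Real.exp y with hLdef
    set η : ℝ := (1 / z) ^ (2 * t) with hηdef
    have hL0 : 0 < L := by positivity
    have hη0 : 0 < η := by positivity
    have hηinv : 1 / η ≤ (k : ℝ) ^ (46 * k) := by
      have : 1 / η = z ^ (2 * t) := by
        rw [hηdef, one_div_pow]
        simp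
      rw [this]
      exact hE
    set x : ℝ := L ^ 2 / η ^ 2 with hxdef
    have hx0 : 0 < x := by positivity
    have hxle : x ≤ (k : ℝ) ^ (124 * k) := by
      have h1 : x = L ^ 2 * (1 / η) ^ 2 := by
        rw [hxdef]
        field_simp
      rw [h1]
      calc L ^ 2 * (1 / η) ^ 2 ≤ ((k : ℝ) ^ (16 * k)) ^ 2 * ((k : ℝ) ^ (46 * k)) ^ 2 := by
            apply mul_le_mul
            · exact pow_le_pow_left₀ hL0.le hL 2
            · exact pow_le_pow_left₀ (by positivity) hηinv 2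
            · positivity
            · positivity
        _ = (k : ℝ) ^ (124 * k) := by
            rw [← pow_mul, ← pow_mul, ← pow_add]
            congr 1
            ring
    have hJ0 : (0 : ℝ) < J := lt_of_lt_of_le (by positivity) hJR
    have hkey : 20000 * (k : ℝ) * x ^ 2 ≤ J := by
      calc 20000 * (k : ℝ) * x ^ 2 ≤ (k : ℝ) ^ 16 * ((k : ℝ) ^ (124 * k)) ^ 2 := by
            apply mul_le_mul
            · have : (20000 : ℝ) ≤ (k : ℝ) ^ 15 := by
                calc (20000 : ℝ) ≤ 2 ^ 15 := by norm_num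
                  _ ≤ (k : ℝ) ^ 15 := pow_le_pow_left₀ (by norm_num) hK 15
              calc 20000 * (k : ℝ) ≤ (k : ℝ) ^ 15 * k :=
                    mul_le_mul_of_nonneg_right this hK0.le
                _ = (k : ℝ) ^ 16 := by ring
            · exact pow_le_pow_left₀ hx0.le hxle 2
            · positivity
            · positivity
        _ = (k : ℝ) ^ (16 + 124 * k * 2) := by rw [← pow_mul, ← pow_add]
        _ ≤ (k : ℝ) ^ (264 * k) := by
            apply pow_le_pow_right₀ (by linarith)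
            omega
        _ ≤ J := hJR
    have hu : (J : ℝ) * η ^ 2 / (2 * L ^ 2) = J / (2 * x) := by
      rw [hxdef]
      field_simp
    rw [hu]
    have hexp : Real.exp (-((J : ℝ) / (2 * x))) ≤ 2 * x / J := by
      rw [Real.exp_neg]
      have h1 : (J : ℝ) / (2 * x) ≤ Real.exp ((J : ℝ) / (2 * x)) := by
        have := Real.add_one_le_exp ((J : ℝ) / (2 * x))
        linarith
      have h2 : 0 < (J : ℝ) / (2 * x) := by positivity
      calc (Real.exp ((J : ℝ) / (2 * x)))⁻¹ ≤ ((J : ℝ) / (2 * x))⁻¹ := inv_anti₀ h2 h1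
        _ = 2 * x / J := by rw [inv_div]
    have h3 : x * Real.exp (-((J : ℝ) / (2 * x))) ≤ 1 / (10000 * (k : ℝ)) := by
      calc x * Real.exp (-((J : ℝ) / (2 * x))) ≤ x * (2 * x / J) :=
            mul_le_mul_of_nonneg_left hexp hx0.le
        _ = 2 * x ^ 2 / J := by ring
        _ ≤ 1 / (10000 * (k : ℝ)) := by
            rw [div_le_div_iff₀ hJ0 (by positivity)]
            linarith
    have h4 : (2 : ℝ) / (10000 * (k : ℝ)) = 1 / (10000 * (k : ℝ)) + 1 / (10000 * (k : ℝ)) := by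
      ring
    rw [h4]
    linarith

/-- a part of small measure is symmetric -/
theorem sym_of_lm13 {k : ℕ} (a : Fin k → ℤ) (ha : ∀ i, a i ≠ 0) (n : Fin k → ℕ)
    (hn : Function.Injective n) (I : Finset (Fin k)) (hI : I.Nonempty)
    (h : lm (fp a n I) < Real.log (13247 / 10000)) :
    ∃ (s : ℕ) (e : ℤ), (e = 1 ∨ e = -1) ∧ ∀ i ∈ I, ∃ j ∈ I, n i + n j = s ∧ a j = e * a i := by
  classical
  obtain ⟨i₀, hi₀, hmin⟩ := I.exists_min_image n hI
  set g : ℤ[X] := ∑ i ∈ I, monomial (n i - n i₀) (a i) with hg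
  have hcoef : ∀ i ∈ I, g.coeff (n i - n i₀) = a i := by
    intro i hi
    rw [hg, finsetSum_coeff, Finset.sum_eq_single i]
    · rw [coeff_monomial, if_pos rfl]
    · intro j hj hji
      rw [coeff_monomial, if_neg]
      intro h1
      apply hji
      apply hn
      have h2 := hmin i hi
      have h3 := hmin j hj
      omega
    · exact fun h1 => absurd hi h1
  have hcoef' : ∀ d, g.coeff d ≠ 0 → ∃ j ∈ I, n j - n i₀ = d := by
    intro d hd
    by_contra hcon
    push Not at hcon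
    apply hd
    rw [hg, finsetSum_coeff]
    refine Finset.sum_eq_zero fun j hj => ?_
    rw [coeff_monomial, if_neg (hcon j hj)]
  have hg0 : g.coeff 0 ≠ 0 := by
    have h1 := hcoef i₀ hi₀
    rw [Nat.sub_self] at h1
    rw [h1]
    exact ha i₀
  have hgne : g ≠ 0 := by
    intro h1
    rw [h1, coeff_zero] at hg0
    exact hg0 rfl
  have hfg : fp a n I = X ^ n i₀ * g := by
    rw [hg, Finset.mul_sum]
    unfold fp
    refine Finset.sum_congr rfl fun i hi => ?_
    rw [X_pow_mul_monomial, Nat.sub_add_cancel (hmin i hi)]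
  rw [hfg, lm_X_pow_mul _ _ hgne] at h
  have hM : lm g = Real.log (N60ffa576.mahlerMeasureZ g) := by
    unfold lm N60ffa576.mahlerMeasureZ
    rw [logMahlerMeasure_eq_log_MahlerMeasure, algebraMap_int_eq]
  have hM0 : 0 < N60ffa576.mahlerMeasureZ g :=
    lt_of_lt_of_le one_pos (Pool.Agent.H25.one_le_mmZ hgne)
  have hMlt : N60ffa576.mahlerMeasureZ g < 13247 / 10000 := by
    rw [hM] at h
    exact (Real.log_lt_log_iff hM0 (by norm_num)).1 h
  have hrev : ∃ e : ℤ, (e = 1 ∨ e = -1) ∧ g.reverse = C e * g := by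
    by_contra hcon
    push Not at hcon
    have h1 : g.reverse ≠ g := by
      have := hcon 1 (Or.inl rfl)
      simpa using this
    have h2 : g.reverse ≠ -g := by
      have := hcon (-1) (Or.inr rfl)
      simpa using this
    have h4 := Pool.Agent.H95.Smyth.smyth g hg0 h1 h2
    have h5 : 1 ≤ N60ffa576.mahlerMeasureZ g := Pool.Agent.H25.one_le_mmZ hgne
    have h6 : N60ffa576.mahlerMeasureZ g ^ 3 - N60ffa576.mahlerMeasureZ g - 1 <
        (13247 / 10000 : ℝ) ^ 3 - 13247 / 10000 - 1 := by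
      nlinarith [mul_nonneg (sub_nonneg.2 h5) (sub_nonneg.2 h5),
        mul_pos (sub_pos.2 hMlt) hM0,
        mul_pos (sub_pos.2 hMlt) (mul_pos hM0 hM0)]
    norm_num at h6
    linarith
  obtain ⟨e, he, hrev⟩ := hrev
  have hee : e * e = 1 := by rcases he with rfl | rfl <;> norm_num
  refine ⟨g.natDegree + 2 * n i₀, e, he, fun i hi => ?_⟩
  have hdi : n i - n i₀ ≤ g.natDegree := by
    apply le_natDegree_of_ne_zero
    rw [hcoef i hi]
    exact ha i
  have h5 : g.reverse.coeff (g.natDegree - (n i - n i₀)) = a i := by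
    rw [coeff_reverse, revAt_le (Nat.sub_le _ _), Nat.sub_sub_self hdi, hcoef i hi]
  rw [hrev, coeff_C_mul] at h5
  have h6 : g.coeff (g.natDegree - (n i - n i₀)) ≠ 0 := by
    intro h7
    rw [h7, mul_zero] at h5
    exact ha i h5.symm
  obtain ⟨j, hj, hji⟩ := hcoef' _ h6
  refine ⟨j, hj, ?_, ?_⟩
  · have h7 := hmin i hi
    have h8 := hmin j hj
    omega
  · rw [← hji, hcoef j hj] at h5
    rw [← h5, ← mul_assoc, hee, one_mul]

/-- faces of polynomials of small measure, given a bound for the measures of the faces -/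
theorem faces_of_bound {k : ℕ} (hk : 0 < k) (a : Fin k → ℤ) (ha : ∀ i, a i ≠ 0) (n : Fin k → ℕ)
    (hn : Function.Injective n) (ε : ℝ) (w : Fin k → ℚ)
    (hb : lm (fp a n (face w)) ≤ lm (sp a n) + ε)
    (h : lm (sp a n) + ε < Real.log (13247 / 10000)) :
    ∃ (s : ℕ) (e : ℤ), (e = 1 ∨ e = -1) ∧
      ∀ i ∈ face w, ∃ j ∈ face w, n i + n j = s ∧ a j = e * a i :=
  sym_of_lm13 a ha n hn (face w) (face_nonempty hk w) (hb.trans_lt h)

/-- the number of terms, given a bound for the measures of the faces -/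
theorem dim_of_bound {k J : ℕ} (hk : 0 < k) (hJ : 2 ≤ J) (a : Fin k → ℤ) (ha : ∀ i, a i ≠ 0)
    (n : Fin k → ℕ) (hn : Function.Injective n) (ε : ℝ) (V : Submodule ℚ (Fin k → ℚ))
    (h1 : (fun _ => (1 : ℚ)) ∈ V) (hV : Kills J n V)
    (hb : ∀ w ∈ V, lm (fp a n (face w)) ≤ lm (sp a n) + ε)
    (h : lm (sp a n) + ε < Real.log (13247 / 10000)) : 2 ^ (Module.finrank ℚ V - 1) ≤ k := by
  refine card_ge hk hJ n hn V h1 hV fun w hw => ?_
  obtain ⟨s, e, -, h2⟩ := faces_of_bound hk a ha n hn ε w (hb w hw) h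
  refine ⟨s, fun i hi => ?_⟩
  obtain ⟨j, hj, hij, -⟩ := h2 i hi
  exact ⟨j, hj, hij⟩

/-- faces of sparse polynomials of small measure -/
theorem faces13 (k : ℕ) (hk : 2 ≤ k) (a : Fin k → ℤ) (ha : ∀ i, a i ≠ 0)
    (n : Fin k → ℕ) (hn : Function.Injective n) (J : ℕ) (hJ : k ^ (264 * k) ≤ J)
    (V : Submodule ℚ (Fin k → ℚ)) (hV : Kills J n V)
    (hM : lm (sp a n) < Real.log (13245 / 10000)) (w : Fin k → ℚ) (hw : w ∈ V) :
    lm (fp a n (face w)) ≤ lm (sp a n) + 1 / 10000 ∧
      lm (sp a n) + 1 / 10000 < Real.log (13247 / 10000) := by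
  obtain ⟨t, ht⟩ : ∃ t, t + 1 = k := ⟨k - 1, by omega⟩
  have ht0 : 0 < t := by omega
  obtain ⟨L, η, hL1, hη0, hη1, hLk, hEr⟩ := S7_num k t hk ht
  have hK : (2 : ℝ) ≤ k := by exact_mod_cast hk
  have hM2 : lm (sp a n) ≤ Real.log 2 :=
    hM.le.trans (Real.log_le_log (by norm_num) (by norm_num))
  have hsum : ∑ i, |(a i : ℝ)| ≤ L := by
    have hi : ∀ i : Fin k, |(a i : ℝ)| ≤
        2 * Real.exp (2 * t * (1 + Real.log (1 + 26 * t))) := by
      intro i
      have hcard : (sp a n).support.card ≤ t + 1 := by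
        rw [ht]
        exact G6_card a n
      have h := coeff_bound t ht0 (sp a n) hcard (n i)
      rw [G6_coeff a n hn i] at h
      have e2 : 2 * Real.exp (2 * t * (1 + Real.log (1 + 26 * t))) =
          Real.exp (Real.log 2 + 2 * t * (1 + Real.log (1 + 26 * t))) := by
        rw [Real.exp_add, Real.exp_log (by norm_num)]
      rw [e2]
      refine h.trans (Real.exp_le_exp.2 ?_)
      linarith
    calc ∑ i, |(a i : ℝ)| ≤ ∑ _i : Fin k,
          2 * Real.exp (2 * t * (1 + Real.log (1 + 26 * t))) :=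
          Finset.sum_le_sum fun i _ => hi i
      _ = (k : ℝ) * (2 * Real.exp (2 * t * (1 + Real.log (1 + 26 * t)))) := by
          simp
      _ ≤ L := hLk
  have hface := face_lm (J := J) t ht0 ht a ha n hn V hV L η hL1 hsum hη0 hη1 w hw
  have hE := hEr J hJ
  have hE' : Er t J L η ≤ 1 / 10000 := by
    refine hE.trans ?_
    rw [div_le_div_iff₀ (by positivity) (by norm_num)]
    linarith
  refine ⟨by linarith, ?_⟩
  have h2 : Real.log (13247 / 10000) = Real.log (13245 / 10000) + Real.log (13247 / 13245) := by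
    rw [← Real.log_mul (by norm_num) (by norm_num)]
    norm_num
  have h4 : 1 - (13247 / 13245 : ℝ)⁻¹ ≤ Real.log (13247 / 13245) :=
    Real.one_sub_inv_le_log_of_pos (by norm_num)
  norm_num at h4
  rw [h2]
  linarith

end Pool.Agent.H95.LK
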